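import Pool.Agent.H78.ROT.Rot

/-!
# Rotations

`rtA k e s`: the change of coordinates `x i - e i * x k`, divided by `2 ^ (s i + 1)` (`i ≠ k`); the
pivot `k` is divided by `2 ^ (s k + 1)`. If `|e i| ≤ 2 ^ s i`, the velocities are not cut (`rtA_bd`).
`rt_x`: the positions; `rt_X`: the digits of the positions; `rt_toX`: the digits of the positions of
the family, from the pivot and the rotated coordinates.
-/

set_option autoImplicit false

namespace Pool.ROT78

open Finset Real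
open Pool.Agent.H49.Ent Pool.Agent.H32.Dense Pool.STK Pool.KA Pool.KSAT Pool.K2S Pool.PB Pool.S6C
open Pool.GEN Pool.REX Pool.REX83

variable {m n J : ℕ}

/-- **The rotation** with the pivot `k` and the direction `e`. -/
noncomputable def rtA (k : Fin m) (e : Fin m → ℝ) (s : Fin m → ℕ) : Af m where
  g i l := (if l = i then 1 else if l = k then -e i else 0) / 2 ^ (s i + 1)
  a _ := 0
  b _ := 0

theorem rtA_sum (k : Fin m) (e : Fin m → ℝ) (s : Fin m → ℕ) {i : Fin m} (hi : i ≠ k)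
    (x : Fin m → ℝ) : ∑ l, (rtA k e s).g i l * x l = (x i - e i * x k) / 2 ^ (s i + 1) := by
  have h1 : ∀ l, (rtA k e s).g i l * x l =
      (if l = i then x i / 2 ^ (s i + 1) else 0) +
        if l = k then -e i * x k / 2 ^ (s i + 1) else 0 := by
    intro l
    show (if l = i then 1 else if l = k then -e i else 0) / 2 ^ (s i + 1) * x l = _
    by_cases h2 : l = i
    · subst h2
      rw [if_pos rfl, if_pos rfl, if_neg hi]
      ring
    · rw [if_neg h2, if_neg h2]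
      by_cases h3 : l = k
      · subst h3
        rw [if_pos rfl, if_pos rfl]
        ring
      · rw [if_neg h3, if_neg h3]
        ring
  rw [Finset.sum_congr rfl fun l _ => h1 l, Finset.sum_add_distrib, Finset.sum_ite_eq',
    Finset.sum_ite_eq', if_pos (mem_univ _), if_pos (mem_univ _)]
  ring

theorem rtA_sumk (k : Fin m) (e : Fin m → ℝ) (s : Fin m → ℕ) (x : Fin m → ℝ) :
    ∑ l, (rtA k e s).g k l * x l = x k / 2 ^ (s k + 1) := by
  have h1 : ∀ l, (rtA k e s).g k l * x l = if l = k then x k / 2 ^ (s k + 1) else 0 := by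
    intro l
    show (if l = k then 1 else if l = k then -e k else 0) / 2 ^ (s k + 1) * x l = _
    by_cases h2 : l = k
    · subst h2
      rw [if_pos rfl, if_pos rfl]
      ring
    · rw [if_neg h2, if_neg h2, if_neg h2]
      ring
  rw [Finset.sum_congr rfl fun l _ => h1 l, Finset.sum_ite_eq', if_pos (mem_univ _)]

/-- The velocities are not cut. -/
theorem rtA_bd {k : Fin m} {e : Fin m → ℝ} {s : Fin m → ℕ}
    (he : ∀ i, i ≠ k → |e i| ≤ 2 ^ s i) : (rtA k e s).Bd := by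
  intro i
  show ∑ l, |(if l = i then 1 else if l = k then -e i else 0) / 2 ^ (s i + 1)| + |(0 : ℝ)| ≤ 1
  rw [abs_zero, add_zero]
  have p0 : (0 : ℝ) < 2 ^ (s i + 1) := by positivity
  have h1 : ∀ l, |(if l = i then 1 else if l = k then -e i else 0) / (2 : ℝ) ^ (s i + 1)| ≤
      (if l = i then 1 / 2 ^ (s i + 1) else 0) +
        if l = k then (if i = k then 0 else |e i|) / 2 ^ (s i + 1) else 0 := by
    intro l
    by_cases h2 : l = i
    · subst h2
      rw [if_pos rfl, if_pos rfl, abs_div, abs_one, abs_of_pos p0]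
      have : (0 : ℝ) ≤ if l = k then (if l = k then 0 else |e l|) / 2 ^ (s l + 1) else 0 := by
        split_ifs <;> positivity
      linarith
    · rw [if_neg h2, if_neg h2]
      by_cases h3 : l = k
      · subst h3
        rw [if_pos rfl, if_pos rfl, abs_div, abs_neg, abs_of_pos p0, if_neg (Ne.symm h2), zero_add]
      · rw [if_neg h3, if_neg h3, zero_div, abs_zero, zero_add]
  refine (Finset.sum_le_sum fun l _ => h1 l).trans ?_
  rw [Finset.sum_add_distrib, Finset.sum_ite_eq', Finset.sum_ite_eq', if_pos (mem_univ _),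
    if_pos (mem_univ _), ← add_div, div_le_one p0]
  have h2 : (if i = k then 0 else |e i|) ≤ 2 ^ s i := by
    by_cases h3 : i = k
    · rw [if_pos h3]
      positivity
    · rw [if_neg h3]
      exact he i h3
  have h3 : (1 : ℝ) ≤ 2 ^ s i := one_le_pow₀ one_le_two
  rw [pow_succ]
  linarith

section fam

variable (F : Fam m J) {D : F.ζ → Af m} {k : Fin m} {e : Fin m → ℝ} {s : Fin m → ℕ}

/-- **The rotated positions.** -/
theorem rt_x {ω : F.Ω} (hD : D (F.Z ω) = rtA k e s) (he : ∀ i, i ≠ k → |e i| ≤ 2 ^ s i)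
    {i : Fin m} (hi : i ≠ k) : (aff F D).x ω i = (F.x ω i - e i * F.x ω k) / 2 ^ (s i + 1) := by
  rw [aff_x F D (by rw [hD]; exact rtA_bd he), hD, rtA_sum k e s hi]
  show _ + (0 : ℝ) + F.t ω * 0 = _
  ring

theorem rt_xk {ω : F.Ω} (hD : D (F.Z ω) = rtA k e s) (he : ∀ i, i ≠ k → |e i| ≤ 2 ^ s i) :
    (aff F D).x ω k = F.x ω k / 2 ^ (s k + 1) := by
  rw [aff_x F D (by rw [hD]; exact rtA_bd he), hD, rtA_sumk]
  show _ + (0 : ℝ) + F.t ω * 0 = _
  ring

/-- **The rotated velocities.** -/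
theorem rt_d {ω : F.Ω} (hD : D (F.Z ω) = rtA k e s) (he : ∀ i, i ≠ k → |e i| ≤ 2 ^ s i)
    {i : Fin m} (hi : i ≠ k) : (aff F D).d ω i = (F.d ω i - e i * F.d ω k) / 2 ^ (s i + 1) := by
  rw [aff_d F D (by rw [hD]; exact rtA_bd he), hD, rtA_sum k e s hi]
  show _ + (0 : ℝ) = _
  ring

theorem floor_div (a : ℝ) {j l : ℕ} (h : l ≤ j) :
    ⌊(2 : ℝ) ^ j * (a / 2 ^ l)⌋ = ⌊(2 : ℝ) ^ (j - l) * a⌋ := by
  have h1 : (2 : ℝ) ^ j * (a / 2 ^ l) = 2 ^ (j - l) * a := by
    obtain ⟨c, rfl⟩ := Nat.exists_eq_add_of_le h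
    rw [Nat.add_sub_cancel_left, pow_add]
    field_simp
  rw [h1]

/-- **The digits of the rotated positions.** -/
theorem rt_X {j : ℕ} {ω : F.Ω} (hD : D (F.Z ω) = rtA k e s)
    (he : ∀ i, i ≠ k → |e i| ≤ 2 ^ s i) {i : Fin m} (hi : i ≠ k) (h : s i + 1 ≤ j) :
    (aff F D).X j ω i = ⌊(2 : ℝ) ^ (j - (s i + 1)) * (F.x ω i - e i * F.x ω k)⌋ := by
  have h1 : (aff F D).X j ω i = ⌊(2 : ℝ) ^ j * (aff F D).x ω i⌋ := rfl
  rw [h1, rt_x F hD he hi, floor_div _ h]

theorem rt_Xk {j : ℕ} {ω : F.Ω} (hD : D (F.Z ω) = rtA k e s)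
    (he : ∀ i, i ≠ k → |e i| ≤ 2 ^ s i) (h : s k + 1 ≤ j) :
    (aff F D).X j ω k = F.X (j - (s k + 1)) ω k := by
  have h1 : (aff F D).X j ω k = ⌊(2 : ℝ) ^ j * (aff F D).x ω k⌋ := rfl
  have h2 : F.X (j - (s k + 1)) ω k = ⌊(2 : ℝ) ^ (j - (s k + 1)) * F.x ω k⌋ := rfl
  rw [h1, h2, rt_xk F hD he, floor_div _ h]

/-- **The digits of the positions of the family**, from the pivot and the rotated coordinate. -/
theorem rt_toX {j : ℕ} {ω ω' : F.Ω} (hD : D (F.Z ω) = rtA k e s) (hZ : F.Z ω = F.Z ω')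
    (he : ∀ i, i ≠ k → |e i| ≤ 2 ^ s i) {i : Fin m} (hi : i ≠ k) (h : s i + 1 ≤ j)
    (h1 : (aff F D).X j ω i = (aff F D).X j ω' i) (h2 : F.X j ω k = F.X j ω' k) :
    |F.X (j - (s i + 1)) ω i - F.X (j - (s i + 1)) ω' i| ≤ 3 := by
  have hD' : D (F.Z ω') = rtA k e s := by rw [← hZ, hD]
  rw [rt_X F hD he hi h, rt_X F hD' he hi h] at h1
  have a1 := near_of_floor h1
  have h2' : ⌊(2 : ℝ) ^ j * F.x ω k⌋ = ⌊(2 : ℝ) ^ j * F.x ω' k⌋ := h2
  have a2 := near_of_floor h2'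
  have p0 : (0 : ℝ) < 2 ^ (s i + 1) := by positivity
  have e1 : (2 : ℝ) ^ j = 2 ^ (j - (s i + 1)) * 2 ^ (s i + 1) := by
    rw [← pow_add]
    congr 1
    omega
  have a3 : |(2 : ℝ) ^ (j - (s i + 1)) * F.x ω k - 2 ^ (j - (s i + 1)) * F.x ω' k| ≤
      1 / 2 ^ (s i + 1) := by
    rw [le_div_iff₀ p0, ← abs_of_pos p0, ← abs_mul]
    refine le_trans (le_of_eq ?_) a2
    congr 1
    rw [e1]
    ring
  have a4 : |e i * ((2 : ℝ) ^ (j - (s i + 1)) * F.x ω k - 2 ^ (j - (s i + 1)) * F.x ω' k)| ≤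
      1 := by
    rw [abs_mul]
    calc _ ≤ 2 ^ s i * (1 / 2 ^ (s i + 1)) :=
          mul_le_mul (he i hi) a3 (abs_nonneg _) (by positivity)
      _ = 1 / 2 := by
          rw [pow_succ]
          field_simp
      _ ≤ 1 := by norm_num
  have a5 : |(2 : ℝ) ^ (j - (s i + 1)) * F.x ω i - 2 ^ (j - (s i + 1)) * F.x ω' i| ≤ (2 : ℕ) := by
    rw [abs_le] at a1 a4 ⊢
    push_cast
    have e2 : (2 : ℝ) ^ (j - (s i + 1)) * (F.x ω i - e i * F.x ω k) -
        2 ^ (j - (s i + 1)) * (F.x ω' i - e i * F.x ω' k) =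
        (2 ^ (j - (s i + 1)) * F.x ω i - 2 ^ (j - (s i + 1)) * F.x ω' i) -
        e i * (2 ^ (j - (s i + 1)) * F.x ω k - 2 ^ (j - (s i + 1)) * F.x ω' k) := by ring
    rw [e2] at a1
    constructor <;> linarith [a1.1, a1.2, a4.1, a4.2]
  exact floor_near a5

end fam

end Pool.ROT78
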