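import Pool.Agent.H83.REC.Exi

/-!
# Classes with an affine change of coordinates which depends on the side information

`Af m`: a matrix `g`, a shift `a` of the positions and a shift `b` of the velocities. `aff F D`: the
family with the lines `g u + a`, `g d + b` (the velocities are cut at `1`), where the data are a
function `D` of the side information; the sample space, the time and the side information do not
change. `Rot S D`: the class of the families `aff F (D J F)`, `F` in `S`; the data are a function of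
the family. Same time deficits (`rot_tmC`), base statements (`bas_rot`), pull-back of subclasses
(`pulR`, `rot_pulR`). `zrot Z D`: a zoom of classes after the change of coordinates.
`sel_D`: data which depend on the family and on the event can be chosen as a function of the family.
`rot_part`, `rot_partD`: a large part of an event where the point determines the point of the
changed family.
-/

set_option autoImplicit false

namespace Pool.ROT78

open Finset Real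
open Pool.Agent.H49.Ent Pool.Agent.H32.Dense Pool.STK Pool.KA Pool.KSAT Pool.K2S Pool.PB Pool.S6C
open Pool.GEN Pool.REX Pool.REX83

variable {m n J : ℕ}

/-! ### Families -/

/-- An affine change of coordinates: positions `g u + a`, velocities `g d + b`. -/
structure Af (m : ℕ) where
  /-- the matrix -/
  g : Fin m → Fin m → ℝ
  /-- the shift of the positions -/
  a : Fin m → ℝ
  /-- the shift of the velocities -/
  b : Fin m → ℝ

/-- **The changed family.** -/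
noncomputable def aff (F : Fam m J) (D : F.ζ → Af m) : Fam m J where
  Ω := F.Ω
  ζ := F.ζ
  fin := F.fin
  p := F.p
  u := fun ω i => ∑ l, (D (F.Z ω)).g i l * F.u ω l + (D (F.Z ω)).a i
  d := fun ω i => max (-1) (min 1 (∑ l, (D (F.Z ω)).g i l * F.d ω l + (D (F.Z ω)).b i))
  T := F.T
  Z := F.Z
  isLaw := F.isLaw
  dir := fun ω i => abs_le.2 ⟨le_max_left _ _, max_le (by norm_num) (min_le_left _ _)⟩
  tim := F.tim

/-- The velocities are not cut. -/
def Af.Bd (D : Af m) : Prop := ∀ i, ∑ l, |D.g i l| + |D.b i| ≤ 1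

section fam

variable (F : Fam m J) (D : F.ζ → Af m)

theorem aff_d {ω : F.Ω} (h : (D (F.Z ω)).Bd) (i : Fin m) : (aff F D).d ω i =
    ∑ l, (D (F.Z ω)).g i l * F.d ω l + (D (F.Z ω)).b i := by
  have h1 : |∑ l, (D (F.Z ω)).g i l * F.d ω l + (D (F.Z ω)).b i| ≤ 1 := by
    refine (abs_add_le _ _).trans (le_trans ?_ (h i))
    refine add_le_add ((Finset.abs_sum_le_sum_abs _ _).trans (Finset.sum_le_sum fun l _ => ?_))
      le_rfl
    rw [abs_mul]
    exact mul_le_of_le_one_right (abs_nonneg _) (F.dir ω l)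
  have h2 := abs_le.1 h1
  show max (-1) (min 1 (∑ l, (D (F.Z ω)).g i l * F.d ω l + (D (F.Z ω)).b i)) = _
  rw [min_eq_right h2.2, max_eq_right h2.1]

/-- **The positions.** -/
theorem aff_x {ω : F.Ω} (h : (D (F.Z ω)).Bd) (i : Fin m) : (aff F D).x ω i =
    ∑ l, (D (F.Z ω)).g i l * F.x ω l + (D (F.Z ω)).a i + F.t ω * (D (F.Z ω)).b i := by
  have h1 : (aff F D).x ω i = (∑ l, (D (F.Z ω)).g i l * F.u ω l + (D (F.Z ω)).a i) +
      F.t ω * (aff F D).d ω i := rfl
  have h2 : ∑ l, (D (F.Z ω)).g i l * F.x ω l = ∑ l, (D (F.Z ω)).g i l * F.u ω l +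
      F.t ω * ∑ l, (D (F.Z ω)).g i l * F.d ω l := by
    rw [Finset.mul_sum, ← Finset.sum_add_distrib]
    refine Finset.sum_congr rfl fun l _ => ?_
    unfold Fam.x
    ring
  rw [h1, h2, aff_d F D h]
  ring

/-- The lines are functions of the lines and of the side information. -/
theorem aff_l {ω ω' : F.Ω} (h : F.l ω = F.l ω') (hZ : F.Z ω = F.Z ω') :
    (aff F D).l ω = (aff F D).l ω' := by
  have h1 : F.u ω = F.u ω' := congrArg Prod.fst h
  have h2 : F.d ω = F.d ω' := congrArg Prod.snd h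
  change ((fun i => ∑ l, (D (F.Z ω)).g i l * F.u ω l + (D (F.Z ω)).a i),
    fun i => max (-1 : ℝ) (min 1 (∑ l, (D (F.Z ω)).g i l * F.d ω l + (D (F.Z ω)).b i))) =
    ((fun i => ∑ l, (D (F.Z ω')).g i l * F.u ω' l + (D (F.Z ω')).a i),
    fun i => max (-1 : ℝ) (min 1 (∑ l, (D (F.Z ω')).g i l * F.d ω' l + (D (F.Z ω')).b i)))
  rw [h1, h2, hZ]

theorem aff_slam {w : ℕ} {ω ω' : F.Ω} (h : slam F w ω = slam F w ω') :
    slam (aff F D) w ω = slam (aff F D) w ω' := by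
  have h0 : F.l ω = F.l ω' := congrArg Prod.fst h
  have h1 := congrArg Prod.snd h
  have h2 : F.Z ω = F.Z ω' := congrArg Prod.fst h1
  exact Prod.ext (aff_l F D h0 h2) h1

/-- The deficit of the time. -/
theorem aff_tm {e : ℝ} (h : F.Tm e) : (aff F D).Tm e := by
  unfold Fam.Tm at h ⊢
  refine h.trans ?_
  change CH F.p F.T (fun ω => (F.l ω, F.Z ω)) ≤ CH F.p F.T (fun ω => ((aff F D).l ω, F.Z ω))
  refine CH_mono_cond F.isLaw.nonneg fun ω ω' _ _ e => ?_
  have e1 : F.l ω = F.l ω' := congrArg Prod.fst e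
  have e2 : F.Z ω = F.Z ω' := congrArg Prod.snd e
  exact Prod.ext (aff_l F D e1 e2) e2

/-- Two positions in the changed family, from the positions. -/
theorem aff_near {ω ω' : F.Ω} (hB : (D (F.Z ω)).Bd) (hZ : F.Z ω = F.Z ω') (hT : F.T ω = F.T ω')
    {i : Fin m} {j : ℕ} {c : ℝ}
    (hx : ∀ l, (D (F.Z ω)).g i l ≠ 0 → |(2 : ℝ) ^ j * F.x ω l - 2 ^ j * F.x ω' l| ≤ c) (hc : 0 ≤ c) :
    |(2 : ℝ) ^ j * (aff F D).x ω i - 2 ^ j * (aff F D).x ω' i| ≤ c := by
  have ht : F.t ω = F.t ω' := by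
    unfold Fam.t
    rw [hT]
  rw [aff_x F D hB, aff_x F D (hZ ▸ hB), ← hZ, ← ht]
  have e1 : (2 : ℝ) ^ j * (∑ l, (D (F.Z ω)).g i l * F.x ω l + (D (F.Z ω)).a i +
      F.t ω * (D (F.Z ω)).b i) - 2 ^ j * (∑ l, (D (F.Z ω)).g i l * F.x ω' l +
        (D (F.Z ω)).a i + F.t ω * (D (F.Z ω)).b i) =
      ∑ l, (D (F.Z ω)).g i l * (2 ^ j * F.x ω l - 2 ^ j * F.x ω' l) := by
    have e2 : ∑ l, (D (F.Z ω)).g i l * (2 ^ j * F.x ω l - 2 ^ j * F.x ω' l) =
        (2 : ℝ) ^ j * ∑ l, (D (F.Z ω)).g i l * F.x ω l -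
          2 ^ j * ∑ l, (D (F.Z ω)).g i l * F.x ω' l := by
      rw [Finset.mul_sum, Finset.mul_sum, ← Finset.sum_sub_distrib]
      exact Finset.sum_congr rfl fun l _ => by ring
    rw [e2]
    ring
  rw [e1]
  refine (Finset.abs_sum_le_sum_abs _ _).trans ?_
  have h2 : ∑ l, |(D (F.Z ω)).g i l| ≤ 1 := by
    have := hB i
    linarith [abs_nonneg ((D (F.Z ω)).b i)]
  calc ∑ l, |(D (F.Z ω)).g i l * (2 ^ j * F.x ω l - 2 ^ j * F.x ω' l)|
      ≤ ∑ l, |(D (F.Z ω)).g i l| * c := by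
        refine Finset.sum_le_sum fun l _ => ?_
        rw [abs_mul]
        by_cases h3 : (D (F.Z ω)).g i l = 0
        · rw [h3, abs_zero, zero_mul, zero_mul]
        · exact mul_le_mul_of_nonneg_left (hx l h3) (abs_nonneg _)
    _ = (∑ l, |(D (F.Z ω)).g i l|) * c := by rw [Finset.sum_mul]
    _ ≤ 1 * c := mul_le_mul_of_nonneg_right h2 hc
    _ = c := one_mul c

/-- Two velocities in the changed family, from the velocities. -/
theorem aff_nearD {ω ω' : F.Ω} (hB : (D (F.Z ω)).Bd) (hZ : F.Z ω = F.Z ω')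
    {i : Fin m} {j : ℕ} {c : ℝ}
    (hx : ∀ l, (D (F.Z ω)).g i l ≠ 0 → |(2 : ℝ) ^ j * F.d ω l - 2 ^ j * F.d ω' l| ≤ c) (hc : 0 ≤ c) :
    |(2 : ℝ) ^ j * (aff F D).d ω i - 2 ^ j * (aff F D).d ω' i| ≤ c := by
  rw [aff_d F D hB, aff_d F D (hZ ▸ hB), ← hZ]
  have e1 : (2 : ℝ) ^ j * (∑ l, (D (F.Z ω)).g i l * F.d ω l + (D (F.Z ω)).b i) -
      2 ^ j * (∑ l, (D (F.Z ω)).g i l * F.d ω' l + (D (F.Z ω)).b i) =
      ∑ l, (D (F.Z ω)).g i l * (2 ^ j * F.d ω l - 2 ^ j * F.d ω' l) := by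
    have e2 : ∑ l, (D (F.Z ω)).g i l * (2 ^ j * F.d ω l - 2 ^ j * F.d ω' l) =
        (2 : ℝ) ^ j * ∑ l, (D (F.Z ω)).g i l * F.d ω l -
          2 ^ j * ∑ l, (D (F.Z ω)).g i l * F.d ω' l := by
      rw [Finset.mul_sum, Finset.mul_sum, ← Finset.sum_sub_distrib]
      exact Finset.sum_congr rfl fun l _ => by ring
    rw [e2]
    ring
  rw [e1]
  refine (Finset.abs_sum_le_sum_abs _ _).trans ?_
  have h2 : ∑ l, |(D (F.Z ω)).g i l| ≤ 1 := by
    have := hB i
    linarith [abs_nonneg ((D (F.Z ω)).b i)]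
  calc ∑ l, |(D (F.Z ω)).g i l * (2 ^ j * F.d ω l - 2 ^ j * F.d ω' l)|
      ≤ ∑ l, |(D (F.Z ω)).g i l| * c := by
        refine Finset.sum_le_sum fun l _ => ?_
        rw [abs_mul]
        by_cases h3 : (D (F.Z ω)).g i l = 0
        · rw [h3, abs_zero, zero_mul, zero_mul]
        · exact mul_le_mul_of_nonneg_left (hx l h3) (abs_nonneg _)
    _ = (∑ l, |(D (F.Z ω)).g i l|) * c := by rw [Finset.sum_mul]
    _ ≤ 1 * c := mul_le_mul_of_nonneg_right h2 hc
    _ = c := one_mul c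

end fam

/-- Equal floors: the numbers are near. -/
theorem near_of_floor {x y : ℝ} (h : ⌊x⌋ = ⌊y⌋) : |x - y| ≤ 1 := by
  have h1 := Int.floor_le x
  have h2 := Int.lt_floor_add_one x
  have h3 := Int.floor_le y
  have h4 := Int.lt_floor_add_one y
  rw [h] at h1 h2
  rw [abs_le]
  constructor <;> linarith

/-- Near numbers: the floors are near. -/
theorem floor_near {x y : ℝ} {c : ℕ} (h : |x - y| ≤ c) : |⌊x⌋ - ⌊y⌋| ≤ (c : ℤ) + 1 := by
  have h1 := Int.floor_le x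
  have h2 := Int.lt_floor_add_one x
  have h3 := Int.floor_le y
  have h4 := Int.lt_floor_add_one y
  have h5 := abs_le.1 h
  have key : |((⌊x⌋ - ⌊y⌋ : ℤ) : ℝ)| ≤ (((c : ℤ) + 1 : ℤ) : ℝ) := by
    rw [abs_le]
    push_cast
    constructor <;> linarith [h5.1, h5.2]
  exact_mod_cast key

section dig

variable (F : Fam m J) (D : F.ζ → Af m)

/-- **The digits of the positions**, from the digits of the positions. -/
theorem aff_X {j : ℕ} {ω ω' : F.Ω} (hB : (D (F.Z ω)).Bd) (hZ : F.Z ω = F.Z ω')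
    (hT : F.T ω = F.T ω') {i : Fin m} (hX : ∀ l, (D (F.Z ω)).g i l ≠ 0 → F.X j ω l = F.X j ω' l) :
    |(aff F D).X j ω i - (aff F D).X j ω' i| ≤ 2 := by
  have h1 := aff_near F D hB hZ hT (i := i) (j := j) (c := (1 : ℕ))
    (fun l hl => by
      rw [Nat.cast_one]
      exact near_of_floor (hX l hl)) (Nat.cast_nonneg _)
  exact floor_near h1

/-- **The digits of the velocities**, from the digits of the velocities. -/
theorem aff_D {j : ℕ} {ω ω' : F.Ω} (hB : (D (F.Z ω)).Bd) (hZ : F.Z ω = F.Z ω')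
    {i : Fin m} (hX : ∀ l, (D (F.Z ω)).g i l ≠ 0 → F.D j ω l = F.D j ω' l) :
    |(aff F D).D j ω i - (aff F D).D j ω' i| ≤ 2 := by
  have h1 := aff_nearD F D hB hZ (i := i) (j := j) (c := (1 : ℕ))
    (fun l hl => by
      rw [Nat.cast_one]
      exact near_of_floor (hX l hl)) (Nat.cast_nonneg _)
  exact floor_near h1

/-- **A large part of the event**, where the point determines the point of the changed family. -/
theorem rot_part (A : F.Ω → Prop) (hB : ∀ ω, A ω → (D (F.Z ω)).Bd) :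
    ∃ B : F.Ω → Prop, Sub B A ∧ Pe F.p A ≤ 5 ^ m * Pe F.p B ∧
      ∀ ω ω', B ω → B ω' → ptr F J ω = ptr F J ω' →
        ptr (aff F D) J ω = ptr (aff F D) J ω' := by
  obtain ⟨B, b1, b2, φ, b3⟩ := Pool.S6K.exact_label F.isLaw 2 (ptr F J)
    (fun ω => (aff F D).X J ω) A (fun ω ω' hω _ h i => by
      have h1 := Prod.ext_iff.mp h
      have h2 := Prod.ext_iff.mp h1.2
      exact_mod_cast aff_X F D (hB ω hω) h2.2 h2.1 fun l _ => congrFun h1.1 l)
  refine ⟨B, b1, ?_, fun ω ω' hω hω' h => ?_⟩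
  · have h1 : ((2 : ℝ) * (2 : ℕ) + 1) = 5 := by norm_num
    rwa [h1] at b2
  · have h1 : (aff F D).X J ω = (aff F D).X J ω' := by
      rw [b3 ω hω, b3 ω' hω', h]
    exact Prod.ext h1 (Prod.ext_iff.mp h).2

/-- **A large part of the event**, where the digits of the velocities and the side information
determine the digits of the velocities of the changed family. -/
theorem rot_partD (j : ℕ) (A : F.Ω → Prop) (hB : ∀ ω, A ω → (D (F.Z ω)).Bd) :
    ∃ B : F.Ω → Prop, Sub B A ∧ Pe F.p A ≤ 5 ^ m * Pe F.p B ∧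
      ∀ ω ω', B ω → B ω' → F.D j ω = F.D j ω' → F.Z ω = F.Z ω' →
        (aff F D).D j ω = (aff F D).D j ω' := by
  obtain ⟨B, b1, b2, φ, b3⟩ := Pool.S6K.exact_label F.isLaw 2 (fun ω => (F.D j ω, F.Z ω))
    (fun ω => (aff F D).D j ω) A (fun ω ω' hω _ h i => by
      have h1 := Prod.ext_iff.mp h
      exact_mod_cast aff_D F D (hB ω hω) h1.2 fun l _ => congrFun h1.1 l)
  refine ⟨B, b1, ?_, fun ω ω' hω hω' h hZ => ?_⟩
  · have h1 : ((2 : ℝ) * (2 : ℕ) + 1) = 5 := by norm_num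
    rwa [h1] at b2
  · have h1 : (F.D j ω, F.Z ω) = (F.D j ω', F.Z ω') := Prod.ext h hZ
    rw [b3 ω hω, b3 ω' hω', h1]

end dig

/-! ### Classes -/

/-- The data of the change of coordinates, for all families. -/
abbrev AfD (m : ℕ) : Type 1 := ∀ (J : ℕ) (F : Fam m J), F.ζ → Af m

/-- The changed families of a class. -/
inductive RotSt (S : PCl m) (D : AfD m) (τ : ℝ) :
    ∀ (J : ℕ) (F : Fam m J), (F.Ω → Prop) → Prop
  | mk (J : ℕ) (F : Fam m J) (A : F.Ω → Prop) (hS : S.St τ J F A) :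
      RotSt S D τ J (aff F (D J F)) A

/-- **The class of the changed families.** -/
def Rot (S : PCl m) (D : AfD m) : PCl m where
  St := RotSt S D
  mono := by
    rintro τ τ' J F A h ⟨F, A, hS⟩
    exact RotSt.mk J F A (S.mono h hS)
  res := by
    rintro τ τ' J F A B h0 ⟨F, A, hS⟩ hB hP
    exact RotSt.mk J F B (S.res h0 hS hB hP)

section cls

variable {S S' : PCl m} {D : AfD m}

theorem rot_mk {τ : ℝ} {F : Fam m J} {A : F.Ω → Prop} (hS : S.St τ J F A) :
    (Rot S D).St τ J (aff F (D J F)) A := RotSt.mk J F A hS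

theorem rot_cases {τ : ℝ} {Φ : Stat m} (h : ∀ (J : ℕ) (F : Fam m J) (A : F.Ω → Prop),
    S.St τ J F A → Φ J (aff F (D J F)) A) {F : Fam m J} {A : F.Ω → Prop}
    (hA : (Rot S D).St τ J F A) : Φ J F A := by
  obtain ⟨F, A, hS⟩ := hA
  exact h J F A hS

theorem rot_ne (hS : S.Ne) : (Rot S D).Ne := by
  intro τ hτ J₁
  obtain ⟨J, hJ, F, A, hA⟩ := hS τ hτ J₁
  exact ⟨J, hJ, aff F (D J F), A, rot_mk hA⟩

theorem rot_sub (h : ∀ (τ : ℝ) (J : ℕ) (F : Fam m J) (A : F.Ω → Prop), S'.St τ J F A →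
    S.St τ J F A) (τ : ℝ) (J : ℕ) (F : Fam m J) (A : F.Ω → Prop) (hA : (Rot S' D).St τ J F A) :
    (Rot S D).St τ J F A :=
  rot_cases (Φ := fun J F A => (Rot S D).St τ J F A) (fun J F A hS => rot_mk (h τ J F A hS)) hA

theorem rot_le (h : S'.Le S) : (Rot S' D).Le (Rot S D) := by
  obtain ⟨τ₀, hτ₀, h⟩ := h
  refine ⟨τ₀, hτ₀, fun τ h1 h2 J F A hA => ?_⟩
  exact rot_cases (Φ := fun J F A => (Rot S D).St τ J F A)
    (fun J F A hS => rot_mk (h τ h1 h2 J F A hS)) hA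

theorem rot_pos (hpos : ∀ (τ : ℝ) (J : ℕ) (F : Fam m J) (A : F.Ω → Prop), S.St τ J F A →
    0 < Pe F.p A) (τ : ℝ) (J : ℕ) (F : Fam m J) (A : F.Ω → Prop)
    (hA : (Rot S D).St τ J F A) : 0 < Pe F.p A :=
  rot_cases (Φ := fun _ F A => 0 < Pe F.p A) (fun J F A hS => hpos τ J F A hS) hA

/-- **The time deficits.** -/
theorem rot_tmC {C₀ : ℝ} (h : TmC S C₀) : TmC (Rot S D) C₀ := by
  intro τ J F A hτ hA
  refine rot_cases (S := S) (D := D) (τ := τ) (Φ := fun J F A => 0 < Pe F.p A ∧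
    ∀ h : IsLaw (Pool.Agent.H49.Ent.cond F.p A True), (F.res A True h).Tm (C₀ * τ * J)) ?_ hA
  intro J F A hS
  obtain ⟨h1, h2⟩ := h τ J F A hτ hS
  exact ⟨h1, fun h3 => aff_tm (F.res A True h3) (D J F) (h2 h3)⟩

/-- **Base statements.** -/
theorem bas_rot {Φ : Stat m} :
    Bas (Rot S D) Φ ↔ Bas S (fun J F A => Φ J (aff F (D J F)) A) := by
  constructor
  · rintro ⟨τ, hτ, J₁, h⟩
    exact ⟨τ, hτ, J₁, fun J hJ F A hA => h J hJ (aff F (D J F)) A (rot_mk hA)⟩
  · rintro ⟨τ, hτ, J₁, h⟩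
    refine ⟨τ, hτ, J₁, fun J hJ F A hA => ?_⟩
    exact rot_cases (S := S) (D := D) (τ := τ) (Φ := fun J F A => J₁ ≤ J → Φ J F A)
      (fun J F A hS hJ => h J hJ F A hS) hA hJ

/-- The families of a class whose changed families are in a class. -/
def pulR (S : PCl m) (D : AfD m) (S' : PCl m) : PCl m where
  St τ J F A := S.St τ J F A ∧ S'.St τ J (aff F (D J F)) A
  mono h hA := ⟨S.mono h hA.1, S'.mono h hA.2⟩
  res h0 hA hB hP := ⟨S.res h0 hA.1 hB hP, S'.res h0 hA.2 hB hP⟩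

theorem pulR_sub (τ : ℝ) (J : ℕ) (F : Fam m J) (A : F.Ω → Prop)
    (h : (pulR S D S').St τ J F A) : S.St τ J F A := h.1

/-- **A subclass of the class of the changed families comes from a subclass.** -/
theorem rot_pulR (h : ∀ (τ : ℝ) (J : ℕ) (F : Fam m J) (A : F.Ω → Prop), S'.St τ J F A →
    (Rot S D).St τ J F A) (τ : ℝ) (J : ℕ) (F : Fam m J) (A : F.Ω → Prop) :
    (Rot (pulR S D S') D).St τ J F A ↔ S'.St τ J F A := by
  constructor
  · intro hA
    exact rot_cases (S := pulR S D S') (Φ := fun J F A => S'.St τ J F A)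
      (fun J F A hS => hS.2) hA
  · intro hA
    exact rot_cases (S := S) (D := D) (Φ := fun J F A => S'.St τ J F A →
      (Rot (pulR S D S') D).St τ J F A) (fun J F A hS h' => rot_mk ⟨hS, h'⟩) (h τ J F A hA) hA

theorem pulR_ne (hne : S'.Ne) (h : ∀ (τ : ℝ) (J : ℕ) (F : Fam m J) (A : F.Ω → Prop),
    S'.St τ J F A → (Rot S D).St τ J F A) : (pulR S D S').Ne := by
  intro τ hτ J₁
  obtain ⟨J, hJ, F, A, hA⟩ := hne τ hτ J₁
  have h1 := (rot_pulR h τ J F A).2 hA
  have key := rot_cases (S := pulR S D S') (D := D) (τ := τ)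
    (Φ := fun J _ _ => ∃ (F' : Fam m J) (A' : F'.Ω → Prop), (pulR S D S').St τ J F' A')
    (fun J F A hS => ⟨F, A, hS⟩) h1
  obtain ⟨F', A', h2⟩ := key
  exact ⟨J, hJ, F', A', h2⟩

end cls

/-! ### Zooms -/

/-- The families whose changed families are in a slice. -/
def slrt (D : AfD m) (P : Sld m) : Sld m where
  P τ J F A := P.P τ J (aff F (D J F)) A
  mono h hA := P.mono h hA
  res h0 hA hB hP := P.res h0 hA hB hP

theorem slrt_sub (S : PCl m) (D : AfD m) (P : Sld m) (τ : ℝ) (J : ℕ) (F : Fam m J)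
    (A : F.Ω → Prop) (hA : (Rot (S.sl (slrt D P)) D).St τ J F A) :
    ((Rot S D).sl P).St τ J F A :=
  rot_cases (S := S.sl (slrt D P)) (Φ := fun J F A => ((Rot S D).sl P).St τ J F A)
    (fun _ _ _ hS => ⟨rot_mk hS.1, hS.2⟩) hA

/-- **A zoom of classes, after the change of coordinates.** -/
def zrot (Z : ZC m n) (D : AfD m) : ZC m n where
  W S := Z.W (Rot S D)
  sl S' := slrt D (Z.sl S')
  le h _ hb := Z.le (rot_le h) hb
  ne hS := Z.ne (rot_ne hS)
  mono h := Z.mono (rot_sub h)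
  pos hpos := Z.pos (rot_pos hpos)
  slne := by
    intro S₁ S' hne hsub
    have h1 := Z.slne hne hsub
    intro τ hτ J₁
    obtain ⟨J, hJ, F, A, hA⟩ := h1 τ hτ J₁
    have key := rot_cases (S := S₁) (D := D) (τ := τ) (Φ := fun J F A => (Z.sl S').P τ J F A →
      ∃ (F' : Fam m J) (A : F'.Ω → Prop), (S₁.sl (slrt D (Z.sl S'))).St τ J F' A)
      (fun J F A hS h2 => ⟨F, A, hS, h2⟩) hA.1
    obtain ⟨F', A', h3⟩ := key hA.2
    exact ⟨J, hJ, F', A', h3⟩
  slbas := by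
    intro S₁ S' Φ hb
    exact Z.le (sub_le (slrt_sub S₁ D (Z.sl S'))) (Z.slbas hb)

/-! ### The choice of the data -/

/-- **The choice of the data.** If for every defect and for large resolutions there are a family,
an event and data with a property, then the data can be chosen as a function of the family. -/
theorem sel_D {E : ∀ J : ℕ, Fam m J → Type*}
    (Q : ℝ → ∀ (J : ℕ) (F : Fam m J), (F.Ω → Prop) → E J F → Prop)
    (hmono : ∀ (τ τ' : ℝ) (J : ℕ) (F : Fam m J) (A : F.Ω → Prop) (e : E J F), τ ≤ τ' →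
      Q τ J F A e → Q τ' J F A e) (hE : ∀ (J : ℕ) (F : Fam m J), Nonempty (E J F))
    (h : ∀ τ : ℝ, 0 < τ → ∀ J₁ : ℕ, ∃ J ≥ J₁, ∃ (F : Fam m J) (A : F.Ω → Prop) (e : E J F),
      Q τ J F A e) :
    ∃ D : ∀ (J : ℕ) (F : Fam m J), E J F, ∀ τ : ℝ, 0 < τ → ∀ J₁ : ℕ, ∃ J ≥ J₁,
      ∃ (F : Fam m J) (A : F.Ω → Prop), Q τ J F A (D J F) := by
  classical
  have key : ∀ (J : ℕ) (F : Fam m J), ∃ e : E J F, ∀ k ≤ J,
      (∃ (A : F.Ω → Prop) (e' : E J F), Q (1 / ((k : ℝ) + 1)) J F A e') →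
        ∃ A : F.Ω → Prop, Q (1 / ((k : ℝ) + 1)) J F A e := by
    intro J F
    by_cases hex : ∃ k ≤ J, ∃ (A : F.Ω → Prop) (e' : E J F), Q (1 / ((k : ℝ) + 1)) J F A e'
    · obtain ⟨k₀, hk₀, hk₁⟩ := hex
      obtain ⟨k, hk, hmax⟩ := Finset.exists_max_image
        ((Finset.range (J + 1)).filter fun k : ℕ =>
          ∃ (A : F.Ω → Prop) (e' : E J F), Q (1 / ((k : ℝ) + 1)) J F A e') (fun k : ℕ => k)
        ⟨k₀, Finset.mem_filter.2 ⟨Finset.mem_range.2 (Nat.lt_succ_of_le hk₀), hk₁⟩⟩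
      obtain ⟨A, e, hA⟩ := (Finset.mem_filter.1 hk).2
      refine ⟨e, fun k' hk' h1 => ⟨A, hmono _ _ J F A e ?_ hA⟩⟩
      have h2 := hmax k' (Finset.mem_filter.2 ⟨Finset.mem_range.2 (by omega), h1⟩)
      refine one_div_le_one_div_of_le (by positivity) ?_
      have h3 : (k' : ℝ) ≤ k := by exact_mod_cast h2
      linarith
    · obtain ⟨e⟩ := hE J F
      exact ⟨e, fun k hk h1 => absurd ⟨k, hk, h1⟩ hex⟩
  choose D hD using key
  refine ⟨D, fun τ hτ J₁ => ?_⟩
  obtain ⟨k, hk⟩ := exists_nat_ge (1 / τ)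
  have hkτ : 1 / ((k : ℝ) + 1) ≤ τ := by
    rw [div_le_iff₀ (by positivity)]
    rw [div_le_iff₀ hτ] at hk
    nlinarith
  obtain ⟨J, hJ, F, A, e, hA⟩ := h (1 / ((k : ℝ) + 1)) (by positivity) (max J₁ k)
  obtain ⟨A', hA'⟩ := hD J F k ((le_max_right _ _).trans hJ) ⟨A, e, hA⟩
  exact ⟨J, (le_max_left _ _).trans hJ, F, A', hmono _ _ J F A' _ hkτ hA'⟩

end Pool.ROT78
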